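import Pool.Agent.H23.OCDA

open Pool.Agent.H23.OCD

theorem Pool.Agent.Results.MP_43f51c_co.Counter.result :
    ∃ (n : ℕ) (G : SimpleGraph (Fin n)), 2 ≤ n ∧ G.Connected ∧ ocd (middle G) ≤ ocd G :=
  ⟨8, A.G, by norm_num, A.conn, A.mid_le.trans A.le_g⟩
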